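import Pool.Agent.H.MP_a58584.D

set_option autoImplicit false
open Set Function Topology Filter TopologicalSpace

namespace Pool.Agent.Results.MP_56ca39_gt.NoUniv
open Pool.Agent.H.MP_a58584

abbrev Γ : Type := ℕ → Bool
abbrev N : Type := List Bool × List Bool
abbrev J : Type := N ⊕ (Γ × Γ)

def a (p : Γ × Γ) (k : ℕ) : N := (List.ofFn fun i : Fin k => p.1 i, List.ofFn fun i : Fin k => p.2 i)

lemma a_eq {p q : Γ × Γ} {k l : ℕ} (h : a p k = a q l) :
    k = l ∧ ∀ i < k, p.1 i = q.1 i ∧ p.2 i = q.2 i := by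
  obtain rfl : k = l := by simpa [a] using congrArg (fun n : N => n.1.length) h
  exact ⟨rfl, fun i hi => ⟨congrFun (List.ofFn_injective (congrArg Prod.fst h)) ⟨i, hi⟩,
    congrFun (List.ofFn_injective (congrArg Prod.snd h)) ⟨i, hi⟩⟩⟩

lemma a_ev {p q : Γ × Γ} (h : p ≠ q) : ∀ᶠ k in atTop, a p k ∉ range (a q) := by
  obtain ⟨i, hi⟩ : ∃ i, ¬ (p.1 i = q.1 i ∧ p.2 i = q.2 i) := by
    by_contra hc
    push Not at hc
    exact h (Prod.ext (funext fun i => (hc i).1) (funext fun i => (hc i).2))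
  filter_upwards [eventually_gt_atTop i] with k hk
  rintro ⟨l, e⟩
  exact hi ((a_eq e.symm).2 i hk)

lemma a_fin {p q : Γ × Γ} (h : p ≠ q) : (range (a p) ∩ range (a q)).Finite := by
  have := a_ev h
  rw [← Nat.cofinite_eq_atTop, eventually_cofinite] at this
  refine (this.image (a p)).subset ?_
  rintro _ ⟨⟨k, rfl⟩, hk⟩
  exact ⟨k, not_not.2 hk, rfl⟩

open Classical in
noncomputable def e (S : Set Γ) (n : N) : J → Bool :=
  Sum.elim (fun m => decide (m = n)) fun p => decide (p.1 ∈ S ∧ n ∈ range (a p))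

def K (S : Set Γ) : Set (J → Bool) := closure (range (e S))

instance (S : Set Γ) : CompactSpace (K S) := isCompact_iff_compactSpace.1 isClosed_closure.isCompact

noncomputable def eK (S : Set Γ) (n : N) : K S := ⟨e S n, subset_closure ⟨n, rfl⟩⟩

lemma clop (j : J) (b : Bool) : IsClopen {z : J → Bool | z j = b} :=
  (isClopen_discrete {b}).preimage (continuous_apply (A := fun _ : J => Bool) j)

lemma K1 {S : Set Γ} (z : K S) {n : N} (h : z.1 (.inl n) = true) : z = eK S n :=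
  Subtype.ext (closure_minimal (t := {z | z (.inl n) = true → z = e S n}) (by
    rintro _ ⟨m, rfl⟩ h
    simp only [e, Sum.elim_inl, decide_eq_true_eq] at h
    rw [h]) (isClosed_imp (clop _ _).2 isClosed_singleton) z.2 h)

lemma K2 {S : Set Γ} (z : K S) (h : ∀ n, z.1 (.inl n) ≠ true) :
    {p | z.1 (.inr p) = true}.Subsingleton := by
  intro p hp q hq
  by_contra hn
  obtain ⟨n, -, hn⟩ := mem_iUnion₂.1 (closure_minimal (t := {z : J → Bool | z (.inr p) = true →
    z (.inr q) = true → z ∈ ⋃ n ∈ range (a p) ∩ range (a q),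
      {z : J → Bool | z (.inl n) = true}}) (by
      rintro _ ⟨m, rfl⟩ h1 h2
      simp only [e, Sum.elim_inr, decide_eq_true_eq] at h1 h2
      exact mem_iUnion₂.2 ⟨m, ⟨h1.2, h2.2⟩, by simp [e]⟩)
    (isClosed_imp (clop _ _).2 (isClosed_imp (clop _ _).2 ((a_fin hn).isClosed_biUnion
      fun _ _ => (clop _ _).1))) z.2 hp hq)
  exact h n hn

lemma K3 {S : Set Γ} {p : Γ × Γ} (h : p.1 ∉ S) :
    Tendsto (fun k => e S (a p k)) atTop (𝓝 fun _ => false) := by
  classical
  refine tendsto_pi_nhds.2 fun j => tendsto_const_nhds.congr' ?_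
  rcases j with m | q
  · filter_upwards [eventually_gt_atTop m.1.length] with k hk
    simp only [e, Sum.elim_inl]
    refine (decide_eq_false fun e => ?_).symm
    simp [e, a] at hk
  · by_cases hq : q.1 ∈ S
    · filter_upwards [a_ev (p := p) (q := q) (fun e => h (e ▸ hq))] with k hk
      simp only [e, Sum.elim_inr]
      exact (decide_eq_false fun e => hk e.2).symm
    · exact .of_forall fun k => by simp [e, hq]

noncomputable def co (S : Set Γ) (j : J) : CP (K S) :=
  ⟨fun z => cond (z.1 j) 1 0, (continuous_of_discreteTopology (f := fun b : Bool =>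
    cond b (1 : ℝ) 0)).comp ((continuous_apply j).comp continuous_subtype_val)⟩

noncomputable def χ (S : Set Γ) (s : Finset N) : CP (K S) :=
  ⟨fun z => ∑ n ∈ s, (co S (.inl n)).1 z, continuous_finsetSum _ fun _ _ => (co S _).2⟩

lemma χ_e (S : Set Γ) (s : Finset N) (m : N) : (χ S s).1 (eK S m) = if m ∈ s then 1 else 0 := by
  simp [χ, co, eK, e, Bool.cond_decide]

lemma fin_dep {X : Type} [TopologicalSpace X] {Λ : CP X → ℝ} (h : Continuous Λ) {O : Set ℝ}
    (hO : IsOpen O) {f : CP X} (hf : Λ f ∈ O) :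
    ∃ F : Set X, F.Finite ∧ ∀ g : CP X, (∀ x ∈ F, g.1 x = f.1 x) → Λ g ∈ O := by
  obtain ⟨s, hs, hs'⟩ := (mem_nhds_subtype _ _ _).1 ((hO.preimage h).mem_nhds (x := f) hf)
  rw [nhds_pi, Filter.mem_pi] at hs
  obtain ⟨F, h1, t, h2, h3⟩ := hs
  exact ⟨F, h1, fun g hg => hs' (h3 fun x hx => (hg x hx).symm ▸ mem_of_mem_nhds (h2 x))⟩

lemma cnt {S : Set Γ} {x : Γ} (hx : x ∈ S) {Λ : CP (K S) → ℝ} (h : Continuous Λ) {O O' : Set ℝ}
    (hO : IsOpen O) (hO' : IsOpen O') (hd : Disjoint O O') (m : N) (b : Prop)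
    (hb : ∀ s : Finset N, (m ∈ s ↔ b) → Λ (χ S s) ∈ O') :
    {y | (m ∈ range (a (x, y)) ↔ b) ∧ Λ (co S (.inr (x, y))) ∈ O}.Countable := by
  classical
  set Y := {y | (m ∈ range (a (x, y)) ↔ b) ∧ Λ (co S (.inr (x, y))) ∈ O}
  choose! F h1 h2 using fun y (hy : y ∈ Y) => fin_dep h hO hy.2
  have hi : Injective (eK S) := fun n n' h => by
    simpa [eK, e] using congrFun (congrArg Subtype.val h) (.inl n)
  have h3 : ∀ y ∈ Y, ∃ t : Finset N, m ∈ t ∧ ∀ n, eK S n ∈ F y → n ∈ t := fun y hy =>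
    ⟨insert m ((h1 y hy).preimage hi.injOn).toFinset, by simp, fun n hn => by simp [hn]⟩
  choose! t h3 h4 using h3
  refine (countable_iUnion fun c : Finset N × Finset N => Finite.countable (s := {y ∈ Y | t y = c.1 ∧
    c.1.filter (· ∈ range (a (x, y))) = c.2}) ?_).mono fun y hy => ?_
  swap
  · exact mem_iUnion.2 ⟨(t y, (t y).filter (· ∈ range (a (x, y)))), hy, rfl, rfl⟩
  by_contra hn
  obtain ⟨y₀, k0, k1, k2⟩ := Set.Infinite.nonempty hn
  obtain ⟨F', h5, h6⟩ := fin_dep h hO' (hb c.2 (by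
    rw [← k2, Finset.mem_filter, ← k1, and_iff_right (h3 y₀ k0)]; exact k0.1))
  obtain ⟨y, ⟨l0, l1, l2⟩, l3⟩ := Set.Infinite.exists_notMem_finite hn
    ((h5.subset (sep_subset F' fun z => ∀ n, z.1 (.inl n) ≠ true)).biUnion
      (t := fun z => Prod.snd '' {p | z.1 (.inr p) = true})
      fun z hz => (K2 z hz.2).finite.image _)
  have hs := (h1 y l0).union h5
  have := hs.to_subtype
  obtain ⟨g, hg⟩ := ContinuousMap.exists_restrict_eq (Y := ℝ) hs.isClosed
    ⟨fun z => if z.1 ∈ F' then (χ S c.2).1 z else (co S (.inr (x, y))).1 z,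
      continuous_of_discreteTopology⟩
  have hg' : ∀ z, z ∈ F y ∪ F' →
      g z = if z ∈ F' then (χ S c.2).1 z else (co S (.inr (x, y))).1 z :=
    fun z hz => DFunLike.congr_fun hg ⟨z, hz⟩
  refine Set.disjoint_left.1 hd (h2 y l0 ⟨g, g.continuous⟩ fun z hz => ?_)
    (h6 _ fun z hz => by simp only [hg' z (Or.inr hz), if_pos hz])
  simp only [hg' z (Or.inl hz)]
  split_ifs with hz'
  · by_cases k : ∀ n, z.1 (.inl n) ≠ true
    · have : z.1 (.inr (x, y)) ≠ true := fun e => l3 (mem_iUnion₂.2 ⟨z, ⟨hz', k⟩, _, e, rfl⟩)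
      simp only [ne_eq, Bool.not_eq_true] at k this
      simp [χ, co, k, this]
    · push Not at k
      obtain ⟨n, k⟩ := k
      obtain rfl := K1 z k
      rw [χ_e, ← l2, ← l1]
      simp [co, eK, e, hx, h4 y l0 n hz]
  · rfl

lemma two {U : Type} [TopologicalSpace U] {S S' : Set Γ} {x : Γ} (hx : x ∈ S) (hx' : x ∉ S')
    {u : K S' → U} (hu : Continuous u) {φ : CP (K S) → CP U} (hφ : Continuous φ)
    (h : ∀ (s : Finset N) m, (m ∈ s → 2 / 3 < (φ (χ S s)).1 (u (eK S' m))) ∧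
      (m ∉ s → (φ (χ S s)).1 (u (eK S' m)) < 1 / 3)) : False := by
  have c : ∀ m, Continuous fun f => (φ f).1 (u (eK S' m)) := fun m =>
    (continuous_apply _).comp (continuous_subtype_val.comp hφ)
  have := countable_iUnion fun m => (cnt hx (c m) isOpen_Iio isOpen_Ioi
    (Iio_disjoint_Ioi_of_le le_rfl) m True fun s hs => (h s m).1 (hs.2 trivial)).union
    (cnt hx (c m) isOpen_Ioi isOpen_Iio (Iio_disjoint_Ioi_of_le le_rfl).symm m False
      fun s hs => (h s m).2 hs.1)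
  obtain ⟨y, hy⟩ : ∃ y, y ∉ _ := by
    by_contra hc
    push Not at hc
    have : Countable Γ := countable_univ_iff.1 (this.mono fun y _ => hc y)
    obtain ⟨g, hg⟩ := exists_surjective_nat Γ
    obtain ⟨n, hn⟩ := hg fun n => !(g n n)
    simpa using congrFun hn n
  simp only [mem_iUnion, mem_union, mem_ofPred_eq, not_exists, not_or, not_and, mem_Iio, mem_Ioi,
    not_lt, iff_true, iff_false] at hy
  have k : ∀ y', Tendsto (fun k => (φ (co S (.inr (x, y)))).1 (u (eK S' (a (x, y') k)))) atTop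
      (𝓝 ((φ (co S (.inr (x, y)))).1 (u ⟨fun _ => false, mem_closure_of_tendsto
        (K3 (p := (x, x)) hx') (.of_forall fun _ => ⟨_, rfl⟩)⟩))) := fun y' =>
    (((φ _).2.comp hu).tendsto _).comp (tendsto_subtype_rng.2 (K3 (p := (x, y')) hx'))
  have h1 := ge_of_tendsto (k y) (.of_forall fun k => (hy _).1 ⟨k, rfl⟩)
  have h2 := le_of_tendsto (k fun n => !(y n)) ((a_ev (q := (x, y)) (fun e => by
    simpa using congrFun (congrArg Prod.snd e) 0)).mono fun k hk => (hy _).2 hk)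
  linarith

lemma cov {U : Type} [TopologicalSpace U] [CompactSpace U] {ℬ : Set (Set U)}
    (hB : IsTopologicalBasis ℬ) {C O : Set U} (hC : IsClosed C) (hO : IsOpen O) (h : C ⊆ O) :
    ∃ b : Finset ℬ, C ⊆ ⋃ V ∈ b, V.1 ∧ ⋃ V ∈ b, V.1 ⊆ O := by
  classical
  obtain ⟨b, hb⟩ := hC.isCompact.elim_finite_subcover (fun V : {V : ℬ // V.1 ⊆ O} => V.1.1)
    (fun V => hB.isOpen V.1.2) fun z hz => by
      obtain ⟨V, h1, h2, h3⟩ := hB.exists_subset_of_mem_open (h hz) hO
      exact mem_iUnion.2 ⟨⟨⟨V, h1⟩, h3⟩, h2⟩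
  refine ⟨b.image Subtype.val, fun z hz => ?_, iUnion₂_subset fun V hV => ?_⟩
  · obtain ⟨V, h1, h2⟩ := mem_iUnion₂.1 (hb hz)
    exact mem_iUnion₂.2 ⟨V.1, Finset.mem_image_of_mem _ h1, h2⟩
  · obtain ⟨W, -, rfl⟩ := Finset.mem_image.1 hV
    exact W.2

lemma wt (S : Set Γ) : ∃ ℬ : Set (Set (K S)), IsTopologicalBasis ℬ ∧
    Cardinal.mk ℬ ≤ Cardinal.continuum := by
  classical
  refine ⟨range fun c : Finset J × Finset J => {z | ∀ j ∈ c.1, z.1 j = decide (j ∈ c.2)},
    isTopologicalBasis_of_isOpen_of_nhds ?_ fun z O hz hO => ?_, Cardinal.mk_range_le.trans ?_⟩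
  · rintro _ ⟨c, rfl⟩
    simp only [ofPred_forall]
    exact isOpen_biInter_finset fun j _ => (clop j _).2.preimage continuous_subtype_val
  · obtain ⟨s, hs, hs'⟩ := (mem_nhds_subtype _ _ _).1 (hO.mem_nhds hz)
    rw [nhds_pi, Filter.mem_pi] at hs
    obtain ⟨F, h1, t, h2, h3⟩ := hs
    have k : ∀ j ∈ h1.toFinset, z.1 j = decide (j ∈ h1.toFinset.filter fun j => z.1 j = true) :=
      fun j hj => by simp only [Finset.mem_filter, hj, true_and, Bool.decide_eq_true]
    refine ⟨_, ⟨(h1.toFinset, h1.toFinset.filter fun j => z.1 j = true), rfl⟩, k,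
      fun w hw => hs' (h3 fun j hj => ?_)⟩
    have hj' := h1.mem_toFinset.2 hj
    rw [(hw j hj').trans (k j hj').symm]
    exact mem_of_mem_nhds (h2 j)
  · simp [Cardinal.mk_finset_of_infinite]

theorem result (U : Type) [TopologicalSpace U] [CompactSpace U] [T2Space U]
    (hU : ∃ ℬ : Set (Set U), IsTopologicalBasis ℬ ∧ Cardinal.mk ℬ ≤ Cardinal.continuum) :
    ∃ (C : Type) (_ : TopologicalSpace C) (_ : CompactSpace C) (_ : T2Space C),
      (∃ ℬ : Set (Set C), IsTopologicalBasis ℬ ∧ Cardinal.mk ℬ ≤ Cardinal.continuum) ∧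
      ∀ Y : Set U, Nonempty (Y ≃ₜ C) →
        ¬ ∃ φ : {f : Y → ℝ // Continuous f} → {g : U → ℝ // Continuous g},
          Continuous φ ∧ ∀ (f : {f : Y → ℝ // Continuous f}) (y : Y), (φ f).1 y.1 = f.1 y := by
  classical
  by_contra H
  obtain ⟨ℬ, hB, hB'⟩ := hU
  have : ∀ S, ∃ u : K S → U, Continuous u ∧ Ext u := fun S => by
    by_contra hc
    refine H ⟨K S, inferInstance, inferInstance, inferInstance, wt S, fun Y ⟨h⟩ h' => hc
      ⟨_, continuous_subtype_val.comp h.symm.continuous, (Ext.homeo h.symm).comp h'⟩⟩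
  choose u h1 φ h2 h3 using this
  choose V v1 v2 using fun S s => cov hB (isClosed_le continuous_const (φ S (χ S s)).2)
    (isOpen_lt continuous_const (φ S (χ S s)).2) fun z (hz : 1 ≤ _) =>
      (show (2 / 3 : ℝ) < 1 by norm_num).trans_le hz
  choose W w1 w2 using fun S s => cov hB (isClosed_le (φ S (χ S s)).2 continuous_const)
    (isOpen_lt (φ S (χ S s)).2 continuous_const) fun z (hz : _ ≤ 0) =>
      hz.trans_lt (show (0 : ℝ) < 1 / 3 by norm_num)
  have k : ∀ S S', (V S, W S) = (V S', W S') → S ⊆ S' := fun S S' e x hx => by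
    by_contra hx'
    refine two hx hx' (h1 S') (h2 S) fun s m => ⟨fun h => v2 S s ?_, fun h => w2 S s ?_⟩
    · rw [show V S = V S' from (Prod.ext_iff.1 e).1]
      exact v1 S' s (by simp [h3, χ_e, h])
    · rw [show W S = W S' from (Prod.ext_iff.1 e).2]
      exact w1 S' s (by simp [h3, χ_e, h])
  have := Cardinal.mk_le_of_injective (f := fun S => (V S, W S))
    fun S S' e => (k S S' e).antisymm (k S' S e.symm)
  have hb : Cardinal.mk (Finset ℬ) ≤ Cardinal.continuum := by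
    rcases finite_or_infinite ℬ with h | h
    · exact Cardinal.mk_le_aleph0.trans Cardinal.aleph0_le_continuum
    · rwa [Cardinal.mk_finset_of_infinite]
  have hc : Cardinal.mk (Finset N → Finset ℬ) ≤ Cardinal.continuum := by
    rw [← Cardinal.power_def, Cardinal.mk_eq_aleph0 (Finset N)]
    exact (Cardinal.power_le_power_right hb).trans_eq Cardinal.continuum_power_aleph0
  rw [Cardinal.mk_prod, Cardinal.lift_id] at this
  have := this.trans ((mul_le_mul' hc hc).trans_eq Cardinal.continuum_mul_self)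
  simp only [Cardinal.mk_set, Cardinal.mk_pi, Cardinal.mk_fintype, Fintype.card_bool, Nat.cast_ofNat,
    Cardinal.prod_const, Cardinal.lift_ofNat, Cardinal.mk_eq_aleph0, Cardinal.lift_aleph0,
    Cardinal.two_power_aleph0] at this
  exact this.not_gt (Cardinal.cantor _)

end Pool.Agent.Results.MP_56ca39_gt.NoUniv
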